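import Pool.Agent.Helper65.KH.Goals

/-!
# Project KH (MP_20ee5e_ag), packet PW: powers of the ideal
-/

set_option autoImplicit false

open MvPolynomial

namespace Pool.Agent.Helper22.KH.PW

open Pool.Agent.Helper65.KH

/-- the product over a multiset -/
noncomputable def pr {ι : Type} (H : ι → MvPolynomial ι ℚ) (s : Multiset ι) : MvPolynomial ι ℚ :=
  (s.map H).prod

theorem pow_le {ι : Type} (H : ι → MvPolynomial ι ℚ) (k : ℕ) :
    idl H ^ k ≤ Ideal.span {f | ∃ s : Multiset ι, s.card = k ∧ f = pr H s} := by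
  induction k with
  | zero =>
    rw [pow_zero, Ideal.one_eq_top, top_le_iff, Ideal.eq_top_iff_one]
    exact Ideal.subset_span ⟨0, rfl, by simp [pr]⟩
  | succ k ih =>
    rw [pow_succ]
    refine (Ideal.mul_mono_left ih).trans ?_
    rw [idl, Ideal.span_mul_span']
    apply Ideal.span_mono
    rintro f ⟨g, ⟨s, hs, rfl⟩, h, ⟨i, rfl⟩, rfl⟩
    refine ⟨i ::ₘ s, by simp [hs], ?_⟩
    simp only [pr, Multiset.map_cons, Multiset.prod_cons]
    ring

theorem pr_mem {ι : Type} (H : ι → MvPolynomial ι ℚ) (s : Multiset ι) :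
    pr H s ∈ idl H ^ s.card := by
  induction s using Multiset.induction_on with
  | empty => simp [pr]
  | cons i s ih =>
    rw [Multiset.card_cons, pow_succ', pr, Multiset.map_cons, Multiset.prod_cons]
    exact Ideal.mul_mem_mul (Ideal.subset_span ⟨i, rfl⟩) ih

theorem step (hFD : S_FD) {ι : Type} [Fintype ι] [DecidableEq ι] (H : ι → MvPolynomial ι ℚ)
    (M k : ℕ) : dq (idl H ^ (k + 1)) M ≤ dq (idl H ^ k) M +
      Fintype.card (Sym ι k) * dq (idl H) M := by
  set A : Ideal (MvPolynomial ι ℚ) := idl H ^ k ⊔ mm ι M with hA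
  set B : Ideal (MvPolynomial ι ℚ) := idl H ^ (k + 1) ⊔ mm ι M with hB
  set C : Ideal (MvPolynomial ι ℚ) := idl H ⊔ mm ι M with hC
  have fA : Module.Finite ℚ (MvPolynomial ι ℚ ⧸ A) := hFD ι (idl H ^ k) M
  have fB : Module.Finite ℚ (MvPolynomial ι ℚ ⧸ B) := hFD ι (idl H ^ (k + 1)) M
  have fC : Module.Finite ℚ (MvPolynomial ι ℚ ⧸ C) := hFD ι (idl H) M
  have hBA : B ≤ A := sup_le_sup_right (Ideal.pow_le_pow_right (Nat.le_succ k)) _
  have hker : ∀ s : Sym ι k, C ≤ LinearMap.ker
      (LinearMap.toSpanSingleton (MvPolynomial ι ℚ) (MvPolynomial ι ℚ ⧸ B) (Submodule.Quotient.mk (pr H s.1))) := by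
    intro s
    rw [hC]
    refine sup_le ?_ ?_
    · intro f hf
      rw [LinearMap.mem_ker, LinearMap.toSpanSingleton_apply, ← Submodule.Quotient.mk_smul,
        Submodule.Quotient.mk_eq_zero]
      refine le_sup_left (a := idl H ^ (k + 1)) ?_
      rw [pow_succ', smul_eq_mul]
      have h1 := pr_mem H s.1
      rw [s.2] at h1
      exact Ideal.mul_mem_mul hf h1
    · intro f hf
      rw [LinearMap.mem_ker, LinearMap.toSpanSingleton_apply, ← Submodule.Quotient.mk_smul,
        Submodule.Quotient.mk_eq_zero]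
      refine le_sup_right (a := idl H ^ (k + 1)) ?_
      rw [smul_eq_mul, mul_comm]
      exact Ideal.mul_mem_left _ _ hf
  let ψ : ∀ s : Sym ι k, (MvPolynomial ι ℚ ⧸ C) →ₗ[MvPolynomial ι ℚ] (MvPolynomial ι ℚ ⧸ B) := fun s =>
    Submodule.liftQ C _ (hker s)
  let Ψ : (Sym ι k → (MvPolynomial ι ℚ ⧸ C)) →ₗ[MvPolynomial ι ℚ] (MvPolynomial ι ℚ ⧸ B) :=
    ∑ s : Sym ι k, (ψ s).comp (LinearMap.proj s)
  let π : (MvPolynomial ι ℚ ⧸ B) →ₗ[MvPolynomial ι ℚ] (MvPolynomial ι ℚ ⧸ A) := Submodule.factor hBA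
  have hle : LinearMap.ker (π.restrictScalars ℚ) ≤ LinearMap.range (Ψ.restrictScalars ℚ) := by
    intro z hz
    obtain ⟨f, rfl⟩ := Submodule.Quotient.mk_surjective B z
    have h1 : π (Submodule.Quotient.mk f) = 0 := hz
    have h2 : f ∈ A := by
      have h3 : π (Submodule.Quotient.mk f) = Submodule.Quotient.mk f := rfl
      rw [h3, Submodule.Quotient.mk_eq_zero] at h1
      exact h1
    obtain ⟨u, hu, v, hv, rfl⟩ := Submodule.mem_sup.1 h2
    have h4 := pow_le H k hu
    have h5 : {f | ∃ s : Multiset ι, s.card = k ∧ f = pr H s} ⊆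
        Set.range (fun s : Sym ι k => pr H s.1) := by
      rintro f ⟨s, hs, rfl⟩
      exact ⟨⟨s, hs⟩, rfl⟩
    have h6 := Ideal.span_mono h5 h4
    obtain ⟨c, hc⟩ := (Submodule.mem_span_range_iff_exists_fun (MvPolynomial ι ℚ)).1 h6
    refine ⟨fun s => Submodule.Quotient.mk (c s), ?_⟩
    have h7 : Ψ (fun s => Submodule.Quotient.mk (c s)) = ∑ s : Sym ι k,
        c s • (Submodule.Quotient.mk (pr H s.1) : MvPolynomial ι ℚ ⧸ B) := by
      simp only [Ψ, LinearMap.sum_apply, LinearMap.comp_apply, LinearMap.proj_apply, ψ]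
      rfl
    show Ψ (fun s => Submodule.Quotient.mk (c s)) = _
    rw [h7, Submodule.Quotient.mk_add, (Submodule.Quotient.mk_eq_zero B).2
      (le_sup_right (a := idl H ^ (k + 1)) hv), add_zero, ← hc]
    rw [← Submodule.mkQ_apply, map_sum]
    refine Finset.sum_congr rfl fun s _ => ?_
    rw [map_smul, Submodule.mkQ_apply]
  have h1 := LinearMap.finrank_range_add_finrank_ker (π.restrictScalars ℚ)
  have h2 := Submodule.finrank_mono hle
  have h3 := LinearMap.finrank_range_le (Ψ.restrictScalars ℚ)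
  have h4 := Submodule.finrank_le (LinearMap.range (π.restrictScalars ℚ))
  have h5 : Module.finrank ℚ (Sym ι k → (MvPolynomial ι ℚ ⧸ C)) =
      Fintype.card (Sym ι k) * Module.finrank ℚ (MvPolynomial ι ℚ ⧸ C) := by
    rw [Module.finrank_pi_fintype]
    simp
  have e1 : dq (idl H ^ (k + 1)) M = Module.finrank ℚ (MvPolynomial ι ℚ ⧸ B) := rfl
  have e2 : dq (idl H ^ k) M = Module.finrank ℚ (MvPolynomial ι ℚ ⧸ A) := rfl
  have e3 : dq (idl H) M = Module.finrank ℚ (MvPolynomial ι ℚ ⧸ C) := rfl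
  rw [e1, e2, e3]
  omega

/-- PW. -/
theorem t (hFD : S_FD) : S_PW := by
  intro ι _ _ H M k
  have h0 : dq (⊤ : Ideal (MvPolynomial ι ℚ)) M = 0 := by
    have h1 : Subsingleton (MvPolynomial ι ℚ ⧸ ((⊤ : Ideal (MvPolynomial ι ℚ)) ⊔ mm ι M)) := by
      rw [top_sup_eq]
      exact Ideal.Quotient.subsingleton_iff.2 rfl
    rw [dq]
    exact Module.finrank_zero_of_subsingleton
  induction k with
  | zero =>
    rw [pow_zero, Ideal.one_eq_top, h0]
    exact Nat.zero_le _
  | succ k ih =>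
    have h1 := step hFD H M k
    rw [Sym.card_sym_eq_choose] at h1
    rcases Nat.eq_zero_or_pos (Fintype.card ι) with hN | hN
    · rw [hN] at h1 ih ⊢
      rcases Nat.eq_zero_or_pos k with hk | hk
      · subst hk
        rw [pow_zero, Ideal.one_eq_top, h0] at h1
        simp at h1 ⊢
      · have h2 : (0 + k - 1).choose k = 0 := Nat.choose_eq_zero_of_lt (by omega)
        rw [h2] at h1
        simp only [Nat.choose_zero_right, one_mul, zero_mul, add_zero] at h1 ih ⊢
        exact h1.trans ih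
    · obtain ⟨N, hN'⟩ : ∃ N, Fintype.card ι = N + 1 := ⟨Fintype.card ι - 1, by omega⟩
      rw [hN'] at h1 ih ⊢
      have e1 : k + 1 + (N + 1) - 1 = (k + N) + 1 := by omega
      have e2 : k + (N + 1) - 1 = k + N := by omega
      have e3 : N + 1 + k - 1 = k + N := by omega
      rw [e1, Nat.choose_succ_succ]
      rw [e2] at ih
      rw [e3] at h1
      have e4 : (k + N).choose k = (k + N).choose N := by
        rw [Nat.choose_symm_add]
      rw [e4] at h1
      calc _ ≤ _ := h1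
        _ ≤ (k + N).choose (N + 1) * dq (idl H) M + (k + N).choose N * dq (idl H) M :=
          Nat.add_le_add_right ih _
        _ = _ := by ring

end Pool.Agent.Helper22.KH.PW
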