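import Pool.Agent.Helper65.KH.Goals

/-!
# Project KH (MP_20ee5e_ag), packet SP1: the reduction step
-/

set_option autoImplicit false

open MvPolynomial

namespace Pool.Agent.Helper22.KH.SP1

open Pool.Agent.Helper65.KH

theorem mon_mul {ι : Type} [Fintype ι] (p q : ι → ℕ) : mon p * mon q = mon (p + q) := by
  unfold mon
  rw [← Finset.prod_mul_distrib]
  refine Finset.prod_congr rfl fun i _ => ?_
  rw [Pi.add_apply, pow_add]

/-- the functional dual to `u` -/
theorem dual {ι : Type} [Fintype ι] [DecidableEq ι] (σ : Finset (ι → ℕ))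
    (hc : σ.card = Fintype.card ι) (hl : LinearIndependent ℝ (fun u : σ => cv (u : ι → ℕ)))
    (u : ι → ℕ) (hu : u ∈ σ) : ∃ a : ι → ℚ, ∑ i, a i * (u i : ℚ) = 1 ∧
      ∀ u' ∈ σ, u' ≠ u → ∑ i, a i * (u' i : ℚ) = 0 := by
  classical
  have hq : LinearIndependent ℚ (fun u : σ => (fun i => ((u : ι → ℕ) i : ℚ))) := by
    rw [Fintype.linearIndependent_iff] at hl ⊢
    intro g hg v
    have h1 := hl (fun v => (g v : ℝ)) (by
      funext i
      have h2 := congrFun hg i
      simp only [Finset.sum_apply, Pi.smul_apply, smul_eq_mul, Pi.zero_apply] at h2 ⊢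
      have h3 : ((∑ v : σ, g v * ((v : ι → ℕ) i : ℚ) : ℚ) : ℝ) = 0 := by
        rw [h2]
        simp
      push_cast at h3
      exact h3) v
    exact_mod_cast h1
  have hcard : Fintype.card σ = Module.finrank ℚ (ι → ℚ) := by
    rw [Fintype.card_coe, hc, Module.finrank_fintype_fun_eq_card]
  rcases isEmpty_or_nonempty σ with he | hne
  · exact (he.false ⟨u, hu⟩).elim
  · let b := basisOfLinearIndependentOfCardEqFinrank hq hcard
    have hb : ∀ v : σ, b v = (fun i => ((v : ι → ℕ) i : ℚ)) := fun v => by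
      simp [b]
    have hφ : ∀ x : ι → ℚ, ∑ i, b.coord ⟨u, hu⟩ (Pi.single i 1) * x i = b.coord ⟨u, hu⟩ x := by
      intro x
      conv_rhs => rw [← Finset.univ_sum_single x]
      rw [map_sum]
      refine Finset.sum_congr rfl fun i _ => ?_
      have h1 : (Pi.single i (x i) : ι → ℚ) = x i • (Pi.single i 1 : ι → ℚ) := by
        rw [← Pi.single_smul, smul_eq_mul, mul_one]
      rw [h1, map_smul, smul_eq_mul, mul_comm]
    refine ⟨fun i => b.coord ⟨u, hu⟩ (Pi.single i 1), ?_, ?_⟩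
    · have h1 := hφ (fun i => (u i : ℚ))
      rw [← hb ⟨u, hu⟩, Module.Basis.coord_apply, Module.Basis.repr_self, Finsupp.single_eq_same] at h1
      exact h1
    · intro u' hu' hne'
      have h1 := hφ (fun i => (u' i : ℚ))
      rw [← hb ⟨u', hu'⟩, Module.Basis.coord_apply, Module.Basis.repr_self, Finsupp.single_eq_of_ne (by
        intro h
        exact hne' (Subtype.ext_iff.1 h).symm)] at h1
      exact h1

/-- SP1. -/
theorem t (hDG : S_DG) : S_SP1 := by
  intro ι _ _ V θ hV hGP hGd p σ l w u hC hu hl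
  obtain ⟨h1, -, -, h4, -⟩ := hDG ι V θ hV hGP hGd p σ l w hC
  obtain ⟨hup, hCq⟩ := h4 u hu hl
  obtain ⟨q1, -, -, -, q5⟩ := hDG ι V θ hV hGP hGd (p - u) σ _ w hCq
  have hdg : dg V θ (p - u) + 1 = dg V θ p := by
    rw [q1, h1, ← Finset.add_sum_erase σ _ hu, ← Finset.add_sum_erase σ l hu,
      Function.update_self]
    have h2 : ∑ x ∈ σ.erase u, Function.update l u (l u - 1) x = ∑ x ∈ σ.erase u, l x :=
      Finset.sum_congr rfl fun x hx => Function.update_of_ne (Finset.ne_of_mem_erase hx) _ _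
    rw [h2]
    ring
  obtain ⟨a, ha1, ha0⟩ := dual σ hC.card (hGP w σ hC.sub hC.one) u hu
  have hA : (∑ i, a i • Lp V i) * mon (p - u) =
      ∑ v ∈ V, (∑ i, a i * (v i : ℚ)) • mon (p - u + v) := by
    have e1 : ∑ i, a i • Lp V i = ∑ v ∈ V, (∑ i, a i * (v i : ℚ)) • mon v := by
      unfold Lp
      simp only [Finset.smul_sum, smul_smul, Finset.sum_smul]
      rw [Finset.sum_comm]
    rw [e1, Finset.sum_mul]
    refine Finset.sum_congr rfl fun v _ => ?_
    rw [smul_mul_assoc, mon_mul, add_comm]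
  have hsplit : ∑ v ∈ V, (∑ i, a i * (v i : ℚ)) • mon (p - u + v) =
      mon p + ∑ v ∈ V \ σ, (∑ i, a i * (v i : ℚ)) • mon (p - u + v) := by
    rw [← Finset.sum_sdiff hC.sub, add_comm]
    congr 1
    rw [← Finset.add_sum_erase σ _ hu, ha1, one_smul]
    have e2 : p - u + u = p := by
      funext i
      simp only [Pi.add_apply, Pi.sub_apply]
      have := hup i
      omega
    rw [e2, Finset.sum_eq_zero, add_zero]
    intro v hv
    rw [ha0 v (Finset.mem_of_mem_erase hv) (Finset.ne_of_mem_erase hv), zero_smul]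
  have hmem1 : (∑ i, a i • Lp V i) * mon (p - u) ∈ idl (Lp V) := by
    apply Ideal.mul_mem_right
    refine Ideal.sum_mem _ fun i _ => ?_
    rw [MvPolynomial.smul_eq_C_mul]
    exact Ideal.mul_mem_left _ _ (Ideal.subset_span ⟨i, rfl⟩)
  have hmem2 : ∑ v ∈ V \ σ, (∑ i, a i * (v i : ℚ)) • mon (p - u + v) ∈ fls V θ (dg V θ p) := by
    refine Ideal.sum_mem _ fun v hv => ?_
    rw [Finset.mem_sdiff] at hv
    rw [MvPolynomial.smul_eq_C_mul]
    refine Ideal.mul_mem_left _ _ (Ideal.subset_span ⟨p - u + v, ?_, rfl⟩)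
    rw [← hdg]
    exact q5 v hv.1 hv.2
  have h5 : mon p = (∑ i, a i • Lp V i) * mon (p - u) -
      ∑ v ∈ V \ σ, (∑ i, a i * (v i : ℚ)) • mon (p - u + v) := by
    rw [hA, hsplit, add_sub_cancel_right]
  rw [h5]
  exact Ideal.sub_mem _ (Ideal.mem_sup_left hmem1) (Ideal.mem_sup_right hmem2)

end Pool.Agent.Helper22.KH.SP1
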